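import Mathlib

/-!
# The threshold `g(k)` of the two-generator Frobenius problem for `k`-th powers of primes

We prove `g(k) ^ (1 / k) → ∞`: for every real `M > 0` one has `g(k) > M ^ k` for all large `k`.

Proof. Let `P` be a prime with `P ≥ 4 M ^ 2` and let `S` be the integer part of `P ^ (k / 2)`.
Among the pairs `(A, A + 1)` with `S / 2 ≤ A ≤ S` only `(A, A + 1)` with
`A s ≤ p ^ k ≤ (A + 1) s` for some `s` represent the number `p ^ k`; for a given `p < P` this happens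
for at most `2 p ^ k / (S / 2)` values of `A`, so for large `k` some `A` is left.  As
`A ^ 2 ≤ P ^ k`, only primes `p < P` have to be considered, and `(A, A + 1)` is not `k`-good.
-/

set_option autoImplicit false

namespace Pool.Agent.Results.MP_0e842d_nt.SuperexponentialThreshold

open Finset

/-- `g_{a₁,a₂} = a₁ a₂ - a₁ - a₂`, for coprime `1 < a₁ < a₂` the largest integer which is not of
the form `a₁ x + a₂ y` with `x, y ≥ 0`. -/
def frob (a₁ a₂ : ℕ) : ℕ := a₁ * a₂ - a₁ - a₂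

/-- The pair `(a₁, a₂)` is `k`-good: some prime `p` satisfies `p ^ k ≤ g_{a₁,a₂}` and
`p ^ k = a₁ x + a₂ y` with nonnegative integers `x, y`. -/
def IsGood (k a₁ a₂ : ℕ) : Prop :=
  ∃ p : ℕ, p.Prime ∧ p ^ k ≤ frob a₁ a₂ ∧ ∃ x y : ℕ, p ^ k = a₁ * x + a₂ * y

/-- `N` is a positive integer such that every coprime pair `(a₁, a₂)` with `1 < a₁ < a₂` and
`N < a₁` is `k`-good; `g(k)` is the least such `N`. -/
def IsThreshold (k N : ℕ) : Prop :=
  0 < N ∧ ∀ a₁ a₂ : ℕ, 1 < a₁ → N < a₁ → a₁ < a₂ → a₁.Coprime a₂ → IsGood k a₁ a₂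

open Classical in
/-- the numbers `A` in `[L, S]` for which `(A, A + 1)` represents `T` -/
lemma card_bad (T L S : ℕ) (hL : 0 < L) :
    ((Icc L S).filter (fun A => ∃ s : ℕ, 0 < s ∧ A * s ≤ T ∧ T ≤ (A + 1) * s)).card ≤
      2 * (T / L) := by
  classical
  set B := (Icc L S).filter (fun A => ∃ s : ℕ, 0 < s ∧ A * s ≤ T ∧ T ≤ (A + 1) * s) with hB
  have hex : ∀ A ∈ B, ∃ s : ℕ, 0 < s ∧ A * s ≤ T ∧ T ≤ (A + 1) * s := fun A hA =>
    (mem_filter.mp hA).2
  choose! f hf using hex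
  have hmaps : ∀ A ∈ B, f A ∈ Icc 1 (T / L) := by
    intro A hA
    obtain ⟨h1, h2, h3⟩ := hf A hA
    have hLA : L ≤ A := (mem_Icc.mp (mem_filter.mp hA).1).1
    rw [mem_Icc]
    refine ⟨h1, ?_⟩
    rw [Nat.le_div_iff_mul_le hL]
    calc f A * L ≤ f A * A := Nat.mul_le_mul_left _ hLA
      _ = A * f A := Nat.mul_comm _ _
      _ ≤ T := h2
  have hfib : ∀ s ∈ Icc 1 (T / L), (B.filter (fun A => f A = s)).card ≤ 2 := by
    intro s hs
    by_contra hcon
    push Not at hcon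
    obtain ⟨a, ha, b, hb, c, hc, hab, hac, hbc⟩ := two_lt_card.mp hcon
    rw [mem_filter] at ha hb hc
    obtain ⟨a1, a2, a3⟩ := hf a ha.1
    obtain ⟨b1, b2, b3⟩ := hf b hb.1
    obtain ⟨c1, c2, c3⟩ := hf c hc.1
    rw [ha.2] at a1 a2 a3
    rw [hb.2] at b2 b3
    rw [hc.2] at c2 c3
    have k1 : a ≤ b + 1 := Nat.le_of_mul_le_mul_right (a2.trans b3) a1
    have k2 : b ≤ a + 1 := Nat.le_of_mul_le_mul_right (b2.trans a3) a1
    have k3 : a ≤ c + 1 := Nat.le_of_mul_le_mul_right (a2.trans c3) a1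
    have k4 : c ≤ a + 1 := Nat.le_of_mul_le_mul_right (c2.trans a3) a1
    have k5 : b ≤ c + 1 := Nat.le_of_mul_le_mul_right (b2.trans c3) a1
    have k6 : c ≤ b + 1 := Nat.le_of_mul_le_mul_right (c2.trans b3) a1
    omega
  have := card_le_mul_card_image_of_maps_to hmaps 2 hfib
  rw [Nat.card_Icc, Nat.add_sub_cancel] at this
  exact this

/-- the main step -/
lemma exists_bad_pair (P : ℕ) (hP : 2 ≤ P) : ∃ k₀ : ℕ, ∀ k : ℕ, k₀ ≤ k →
    ∃ A : ℕ, 1 < A ∧ P ^ k < 16 * A ^ 2 ∧ ¬ IsGood k A (A + 1) := by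
  classical
  -- for large `k` one has `64 (P - 1) ^ (k + 1) < P ^ k`
  have hlim : ∃ k₁ : ℕ, ∀ k : ℕ, k₁ ≤ k → 64 * (P - 1) ^ (k + 1) < P ^ k := by
    obtain ⟨Q, rfl⟩ : ∃ Q, P = Q + 1 := ⟨P - 1, by omega⟩
    rw [Nat.add_sub_cancel]
    have hQ : 1 ≤ Q := by omega
    have hb : (1 : ℝ) < ((Q + 1 : ℕ) : ℝ) / Q := by
      rw [lt_div_iff₀ (by exact_mod_cast hQ)]
      push_cast
      linarith
    have ht := tendsto_pow_atTop_atTop_of_one_lt hb
    obtain ⟨k₁, hk₁⟩ := Filter.eventually_atTop.mp (ht.eventually_gt_atTop (64 * (Q : ℝ)))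
    refine ⟨k₁, fun k hk => ?_⟩
    have h := hk₁ k hk
    have hQk : (0 : ℝ) < (Q : ℝ) ^ k := by
      have : (0 : ℝ) < Q := by exact_mod_cast hQ
      positivity
    rw [div_pow, lt_div_iff₀ hQk] at h
    have h2 : ((64 * Q ^ (k + 1) : ℕ) : ℝ) < (((Q + 1) ^ k : ℕ) : ℝ) := by
      push_cast
      push_cast at h
      calc 64 * (Q : ℝ) ^ (k + 1) = 64 * (Q : ℝ) * (Q : ℝ) ^ k := by ring
        _ < _ := h
    exact_mod_cast h2
  obtain ⟨k₁, hk₁⟩ := hlim
  refine ⟨max k₁ 6, fun k hk => ?_⟩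
  have h32 := hk₁ k ((le_max_left _ _).trans hk)
  have hk6 : 6 ≤ k := (le_max_right _ _).trans hk
  set S := Nat.sqrt (P ^ k) with hS
  have hS2 : S * S ≤ P ^ k := Nat.sqrt_le _
  have hS3 : P ^ k < (S + 1) * (S + 1) := Nat.lt_succ_sqrt _
  have h64 : 64 ≤ P ^ k := by
    calc 64 = 2 ^ 6 := by norm_num
      _ ≤ P ^ 6 := Nat.pow_le_pow_left hP 6
      _ ≤ P ^ k := Nat.pow_le_pow_right (by omega) hk6
  have hS8 : 8 ≤ S := by
    rw [hS, Nat.le_sqrt]
    omega
  have hS4 : P ^ k < 4 * (S * S) := by nlinarith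
  set L := (S + 1) / 2 with hL
  have hL1 : S ≤ 2 * L := by omega
  have hL2 : 2 * L ≤ S + 1 := by omega
  have hL0 : 0 < L := by omega
  -- the bad values
  set bad : ℕ → Finset ℕ := fun p => (Icc L S).filter
    (fun A => ∃ s : ℕ, 0 < s ∧ A * s ≤ p ^ k ∧ p ^ k ≤ (A + 1) * s) with hbad
  have hcard : ((range P).biUnion bad).card < (Icc L S).card := by
    have h1 : ((range P).biUnion bad).card ≤ (range P).card * (2 * ((P - 1) ^ k / L)) := by
      apply card_biUnion_le_card_mul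
      intro p hp
      have hp' : p ≤ P - 1 := by
        have := mem_range.mp hp
        omega
      refine (card_bad (p ^ k) L S hL0).trans ?_
      exact Nat.mul_le_mul_left _ (Nat.div_le_div_right (Nat.pow_le_pow_left hp' k))
    rw [card_range] at h1
    rw [Nat.card_Icc]
    refine lt_of_le_of_lt h1 ?_
    have h2 : (P - 1) ^ k / L * L ≤ (P - 1) ^ k := Nat.div_mul_le_self _ _
    by_contra hcon
    push Not at hcon
    have hPle : P ≤ 2 * (P - 1) := by omega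
    have h3 : (S + 1 - L) * L ≤ P * (2 * ((P - 1) ^ k / L)) * L := Nat.mul_le_mul_right _ hcon
    have h4 : P * (2 * ((P - 1) ^ k / L)) * L ≤ 4 * (P - 1) ^ (k + 1) := by
      calc P * (2 * ((P - 1) ^ k / L)) * L = 2 * P * ((P - 1) ^ k / L * L) := by ring
        _ ≤ 2 * P * (P - 1) ^ k := Nat.mul_le_mul_left _ h2
        _ ≤ 2 * (2 * (P - 1)) * (P - 1) ^ k := by gcongr
        _ = 4 * (P - 1) ^ (k + 1) := by ring
    have h5 : L ≤ S + 1 - L := by omega
    have h6 : L * L ≤ (S + 1 - L) * L := Nat.mul_le_mul_right _ h5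
    have h7 : S * S ≤ 4 * (L * L) := by nlinarith
    have h8 : L * L ≤ 4 * (P - 1) ^ (k + 1) := h6.trans (h3.trans h4)
    omega
  obtain ⟨A, hA1, hA2⟩ : ∃ A ∈ Icc L S, A ∉ (range P).biUnion bad := by
    by_contra hcon
    push Not at hcon
    exact absurd (card_le_card (fun A hA => hcon A hA)) (not_le.mpr hcard)
  rw [mem_Icc] at hA1
  refine ⟨A, by omega, ?_, ?_⟩
  · have : S * S ≤ 4 * (A * A) := by nlinarith [hA1.1]
    calc P ^ k < 4 * (S * S) := hS4
      _ ≤ 4 * (4 * (A * A)) := Nat.mul_le_mul_left _ this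
      _ = 16 * A ^ 2 := by ring
  · rintro ⟨p, hp, hle, x, y, hxy⟩
    have hfr : frob A (A + 1) < P ^ k := by
      unfold frob
      have h1 : A * (A + 1) = A * A + A := by ring
      have h2 : A * A ≤ S * S := Nat.mul_le_mul hA1.2 hA1.2
      rw [h1]
      omega
    have hpP : p < P := by
      by_contra hge
      push Not at hge
      have := Nat.pow_le_pow_left hge k
      omega
    apply hA2
    rw [mem_biUnion]
    refine ⟨p, mem_range.mpr hpP, ?_⟩
    simp only [hbad]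
    rw [mem_filter, mem_Icc]
    refine ⟨hA1, x + y, ?_, ?_, ?_⟩
    · by_contra h0
      push Not at h0
      have hx : x = 0 := by omega
      have hy : y = 0 := by omega
      rw [hx, hy] at hxy
      have : 0 < p ^ k := pow_pos hp.pos k
      omega
    · rw [hxy]
      nlinarith
    · rw [hxy]
      nlinarith

/-- **`g(k) ^ (1 / k) → ∞`.** For every real `M > 0` there is `k₀` such that for all `k ≥ k₀`
every `N` which has the property in the definition of `g(k)`, in particular the least one, which is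
`g(k)`, satisfies `N > M ^ k`. -/
theorem result : ∀ M : ℝ, 0 < M → ∃ k₀ : ℕ, ∀ k : ℕ, k₀ ≤ k →
    ∀ N : ℕ, IsThreshold k N → M ^ k < (N : ℝ) := by
  intro M hM
  obtain ⟨P, hP1, hP2⟩ := Nat.exists_infinite_primes (⌈4 * M ^ 2⌉₊ + 2)
  have hPM : 4 * M ^ 2 ≤ (P : ℝ) := by
    have h1 := Nat.le_ceil (4 * M ^ 2)
    have h2 : ((⌈4 * M ^ 2⌉₊ + 2 : ℕ) : ℝ) ≤ (P : ℝ) := by exact_mod_cast hP1
    push_cast at h2
    linarith
  obtain ⟨k₁, hk₁⟩ := exists_bad_pair P hP2.two_le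
  refine ⟨max k₁ 2, fun k hk N hN => ?_⟩
  obtain ⟨A, hA1, hA2, hA3⟩ := hk₁ k ((le_max_left _ _).trans hk)
  have hk2 : 2 ≤ k := (le_max_right _ _).trans hk
  have hNA : A ≤ N := by
    by_contra hlt
    push Not at hlt
    exact hA3 (hN.2 A (A + 1) hA1 hlt (Nat.lt_succ_self A) (by simp))
  have h1 : (P : ℝ) ^ k < 16 * (A : ℝ) ^ 2 := by exact_mod_cast hA2
  have h2 : (4 * M ^ 2) ^ k ≤ (P : ℝ) ^ k := pow_le_pow_left₀ (by positivity) hPM k
  have h3 : (16 : ℝ) ≤ 4 ^ k := by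
    calc (16 : ℝ) = 4 ^ 2 := by norm_num
      _ ≤ 4 ^ k := pow_le_pow_right₀ (by norm_num) hk2
  have h4 : (4 * M ^ 2) ^ k = 4 ^ k * (M ^ k) ^ 2 := by
    rw [mul_pow, ← pow_mul, ← pow_mul, mul_comm 2 k]
  have h5 : 16 * (M ^ k) ^ 2 ≤ 4 ^ k * (M ^ k) ^ 2 := by
    apply mul_le_mul_of_nonneg_right h3 (by positivity)
  have h6 : (M ^ k) ^ 2 < (A : ℝ) ^ 2 := by
    rw [h4] at h2
    linarith
  have h7 : M ^ k < (A : ℝ) := lt_of_pow_lt_pow_left₀ 2 (by positivity) h6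
  have h8 : (A : ℝ) ≤ N := by exact_mod_cast hNA
  linarith

end Pool.Agent.Results.MP_0e842d_nt.SuperexponentialThreshold
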